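import Pool.Agent.helper60.EPT.Spec

set_option autoImplicit false

namespace Pool.Agent.EPT

open D

theorem RCG (hPBC : PBC_stmt) (hRSZ : RSZ_stmt) : RCG_stmt := by
  obtain ⟨h1, h2, h3, h4, h5, h6⟩ := hPBC
  have k4 : ∀ (S : D → ℕ) (f : D → D), RT S f → PB S fun x => (f x).size := by
    rintro S f ⟨p, c, h⟩
    refine ⟨c, fun x => ?_⟩
    obtain ⟨t, ht, hr⟩ := h x
    exact (hRSZ p x (f x) t hr).trans ht
  have k1 : ∀ (S S' : D → ℕ) (g f : D → D), RT S' g → RT S f → PB S (fun x => S' (f x)) →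
      RT S fun x => g (f x) := by
    rintro S S' g f ⟨q, c', hq⟩ ⟨p, c, hp⟩ hS
    obtain ⟨e, he⟩ := (h3 S (fun x => (S x + c) ^ c) (fun x => (S' (f x) + c') ^ c')
      (h4 S S c (h2 S)) (h4 S (fun x => S' (f x)) c' hS)).1
    refine ⟨.comp q p, e, fun x => ?_⟩
    obtain ⟨t, ht, hr⟩ := hp x
    obtain ⟨t', ht', hr'⟩ := hq (f x)
    exact ⟨t + t', (add_le_add ht ht').trans (he x), Run.comp q p x (f x) (g (f x)) t t' hr hr'⟩
  refine ⟨k1, ?_, ?_, k4⟩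
  · intro S g f hg hf
    exact k1 S size g f hg hf (k4 S f hf)
  · rintro S S' f ⟨p, c, h⟩ hS
    obtain ⟨e, he⟩ := h4 S' S c hS
    refine ⟨p, e, fun x => ?_⟩
    obtain ⟨t, ht, hr⟩ := h x
    exact ⟨t, ht.trans (he x), hr⟩

end Pool.Agent.EPT
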