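import Pool.Agent.helper60.EPT.Spec

set_option autoImplicit false

namespace Pool.Agent.EPT

open D

theorem REV_fold (l : List D) : ∀ a : D,
    l.foldl (fun acc h => cons h acc) a = ofList (l.reverse ++ a.toList) := by
  induction l with
  | nil => intro a; simp
  | cons h l ih =>
    intro a
    rw [List.foldl_cons, ih]
    simp

theorem REV_size (L l : List D) (a : D) (h : L <+: l) :
    (ofList (L.reverse ++ a.toList)).size ≤ (ofList l).size + a.size := by
  obtain ⟨M, rfl⟩ := h
  have h1 : a.size = (a.toList.map size).sum + a.toList.length + 1 := by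
    rw [← size_ofList, ofList_toList]
  rw [size_ofList, size_ofList, h1]
  simp only [List.map_append, List.sum_append, List.length_append, List.map_reverse,
    List.sum_reverse, List.length_reverse]
  omega

theorem REV_bound (n c1 c2 : ℕ) :
    (n + c1) ^ c1 + (n + c2) ^ c2 ≤ (n + (c1 + c2 + 2)) ^ (c1 + c2 + 2) := by
  set M := n + (c1 + c2 + 2) with hM
  have hM2 : 2 ≤ M := by omega
  have h1 : (n + c1) ^ c1 ≤ M ^ (c1 + c2) :=
    (Nat.pow_le_pow_left (by omega) _).trans (Nat.pow_le_pow_right (by omega) (by omega))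
  have h2 : (n + c2) ^ c2 ≤ M ^ (c1 + c2) :=
    (Nat.pow_le_pow_left (by omega) _).trans (Nat.pow_le_pow_right (by omega) (by omega))
  have h3 : M ^ (c1 + c2) + M ^ (c1 + c2) ≤ M ^ (c1 + c2 + 1) := by
    rw [pow_succ]
    nlinarith [Nat.zero_le (M ^ (c1 + c2))]
  have h4 : M ^ (c1 + c2 + 1) ≤ M ^ (c1 + c2 + 2) := Nat.pow_le_pow_right (by omega) (by omega)
  omega

theorem REV (hC : Cal) : REV_stmt := by
  have key : ∀ l a : D → D, FP l → FP a →
      FP fun x => ofList ((l x).toList.reverse ++ (a x).toList) := by
    intro l a hl ha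
    obtain ⟨c1, h1⟩ := hC.bound l hl
    obtain ⟨c2, h2⟩ := hC.bound a ha
    have hf : FP fun s => cons s.snd.fst s.fst :=
      hC.cons _ _ (hC.fst _ (hC.snd _ hC.id)) (hC.fst _ hC.id)
    have h := hC.fold (fun s => cons s.snd.fst s.fst) l (fun _ => nil) a hf hl (hC.const nil) ha
      ⟨c1 + c2 + 2, fun x L hL => by
        simp only [fst_cons, snd_cons]
        rw [REV_fold]
        refine (REV_size L _ (a x) hL).trans ?_
        rw [ofList_toList]
        exact (add_le_add (h1 x) (h2 x)).trans (REV_bound _ _ _)⟩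
    simp only [fst_cons, snd_cons, REV_fold] at h
    exact h
  have h0 : FP fun x => ofList x.toList.reverse := by
    have := key (fun x => x) (fun _ => nil) hC.id (hC.const nil)
    simpa using this
  refine ⟨h0, fun a b ha hb => ?_⟩
  have := key (fun x => ofList (a x).toList.reverse) b
    (hC.comp (fun x => ofList x.toList.reverse) a h0 ha) hb
  simpa using this

end Pool.Agent.EPT
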