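import Pool.Agent.helper60.EPT.Spec

set_option autoImplicit false

namespace Pool.Agent.EPT

open D

theorem RWL_loop (c f : D → D) (pc pf : Prog) (c1 c2 b : ℕ)
    (hc : ∀ x, ∃ t, t ≤ (size x + c1) ^ c1 ∧ Run pc x (c x) t)
    (hf : ∀ x, ∃ t, t ≤ (size x + c2) ^ c2 ∧ Run pf x (f x) t) (N : ℕ) :
    ∀ s : D, c (f^[N] s) = nil → (∀ i : ℕ, i < N → c (f^[i] s) ≠ nil) →
      (∀ i : ℕ, i ≤ N → (f^[i] s).size ≤ b) →
      ∃ t, t ≤ (N + 1) * ((b + c1) ^ c1 + (b + c2) ^ c2 + b) ∧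
        Run (.loop pc pf) s (f^[N] s) t := by
  induction N with
  | zero =>
    intro s h1 h2 h3
    obtain ⟨t, ht, hr⟩ := hc s
    have h0 : c s = nil := h1
    rw [h0] at hr
    have hs : s.size ≤ b := h3 0 le_rfl
    refine ⟨t + s.size, ?_, Run.loopf pc pf s t hr⟩
    have h5 : (size s + c1) ^ c1 ≤ (b + c1) ^ c1 := Nat.pow_le_pow_left (by omega) _
    have h6 : 0 ≤ (b + c2) ^ c2 := Nat.zero_le _
    rw [zero_add, one_mul]
    omega
  | succ N ih =>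
    intro s h1 h2 h3
    obtain ⟨t, ht, hr⟩ := hc s
    obtain ⟨t', ht', hr'⟩ := hf s
    have h0 : c s ≠ nil := h2 0 (by omega)
    have hs : s.size ≤ b := h3 0 (by omega)
    obtain ⟨u, hu, hur⟩ := ih (f s) (by rw [← Function.iterate_succ_apply]; exact h1)
      (fun i hi => by rw [← Function.iterate_succ_apply]; exact h2 (i + 1) (by omega))
      (fun i hi => by rw [← Function.iterate_succ_apply]; exact h3 (i + 1) (by omega))
    rw [← Function.iterate_succ_apply] at hur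
    refine ⟨t + t' + u + s.size, ?_, Run.loopt pc pf s (c s) (f s) _ t t' u hr h0 hr' hur⟩
    have h5 : (size s + c1) ^ c1 ≤ (b + c1) ^ c1 := Nat.pow_le_pow_left (by omega) _
    have h6 : (size s + c2) ^ c2 ≤ (b + c2) ^ c2 := Nat.pow_le_pow_left (by omega) _
    have h7 : (N + 1 + 1) * ((b + c1) ^ c1 + (b + c2) ^ c2 + b) =
        (N + 1) * ((b + c1) ^ c1 + (b + c2) ^ c2 + b) + ((b + c1) ^ c1 + (b + c2) ^ c2 + b) := by
      ring
    omega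

theorem RWL (hPBC : PBC_stmt) (hRSZ : RSZ_stmt) (hRCG : RCG_stmt) : RWL_stmt := by
  obtain ⟨k1, k2, k3, k4, k5, k6⟩ := hPBC
  have _ := hRSZ
  have _ := hRCG
  rintro S hS c f a r ⟨pc, c1, hc⟩ ⟨pf, c2, hf⟩ ⟨pa, c3, ha⟩ ⟨B, hB, hN⟩
  have q1 := k4 S B c1 hB
  have q2 := k4 S B c2 hB
  have q3 := (k3 S _ _ q1 q2).1
  have q4 := (k3 S _ _ q3 hB).1
  have q5 := (k3 S _ _ hB (k1 S 1)).1
  have q6 := (k3 S _ _ q5 q4).2
  have q7 := (k3 S _ _ (k4 S S c3 (k2 S)) q6).1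
  obtain ⟨e, he⟩ := q7
  refine ⟨.comp (.loop pc pf) pa, e, fun x => ?_⟩
  obtain ⟨t, ht, hr⟩ := ha x
  obtain ⟨N, hNB, hrx, hcn, hci, hsz⟩ := hN x
  rw [hrx] at hcn
  obtain ⟨u, hu, hur⟩ := RWL_loop c f pc pf c1 c2 (B x) hc hf N (a x) hcn hci hsz
  rw [← hrx] at hur
  refine ⟨t + u, ?_, Run.comp _ _ x (a x) (r x) t u hr hur⟩
  have h8 : (N + 1) * ((B x + c1) ^ c1 + (B x + c2) ^ c2 + B x) ≤
      (B x + 1) * ((B x + c1) ^ c1 + (B x + c2) ^ c2 + B x) :=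
    Nat.mul_le_mul_right _ (by omega)
  have h9 := he x
  simp only at h9
  omega

end Pool.Agent.EPT
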